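import Pool.Agent.X212.Roth.Tree
import Pool.Agent.H151.Combi

/-!
A subspace of an uncountable product of non-compact spaces which fills countable subproducts is
not paracompact.
-/

set_option autoImplicit false

namespace Pool.Agent.X212.Fill

open Set Topology Filter Pool.Agent.Helper330.DPK.Coh Pool.Agent.X212.Roth

universe u v

variable {I : Type u} {X : I → Type v}

/-- Working form of filling countable subproducts. -/
def Fills (D : Set (∀ i, X i)) : Prop :=
  ∀ (a : ∀ i, X i) (J : Set I), J.Countable → ∃ x ∈ D, ∀ i ∈ J, x i = a i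

variable [∀ i, TopologicalSpace (X i)]

/-- Some sequence has no cluster point in the coordinates of `J`. -/
def Bad (X : I → Type v) [∀ i, TopologicalSpace (X i)] (J : Set I) : Prop :=
  ∃ w : ℕ → ∀ i, X i, ∀ x : ∀ i, X i,
    ∃ F : Finset I, (F : Set I) ⊆ J ∧ ∃ U : ∀ i, Set (X i), (∀ i, IsOpen (U i)) ∧
      (∀ i ∈ F, x i ∈ U i) ∧ ∃ n, ∀ m ≥ n, ∃ i ∈ F, w m i ∉ U i

/-- Basic neighbourhoods in a subspace of the product. -/
lemma exists_box {D : Set (∀ i, X i)} {y : D} {N : Set D} (hN : N ∈ 𝓝 y) :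
    ∃ (F : Finset I) (U : ∀ i, Set (X i)), (∀ i, IsOpen (U i)) ∧ (∀ i ∈ F, y.1 i ∈ U i) ∧
      ∀ x : D, (∀ i ∈ F, x.1 i ∈ U i) → x ∈ N := by
  classical
  rw [nhds_subtype_eq_comap] at hN
  obtain ⟨T, hT, hTN⟩ := hN
  obtain ⟨T', hT'T, hT', hy⟩ := mem_nhds_iff.1 hT
  obtain ⟨F, U, hU, hFU⟩ := isOpen_pi_iff.1 hT' y.1 hy
  refine ⟨F, fun i => if i ∈ F then U i else Set.univ, ?_, ?_, ?_⟩
  · intro i
    by_cases hi : i ∈ F
    · simpa [hi] using (hU i hi).1
    · simp [hi]
  · intro i hi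
    simpa [hi] using (hU i hi).2
  · intro x hx
    apply hTN
    apply hT'T
    apply hFU
    intro i hi
    have := hx i hi
    simpa [Finset.mem_coe.1 hi] using this

/-- Case B: if there is no bad countable set outside a countable set, the factors outside are
compact. -/
theorem compact_factor {D : Set (∀ i, X i)} (hD : Fills D) [ParacompactSpace D]
    (a : ∀ i, X i) {J₀ : Set I} (hJ₀ : J₀.Countable)
    (hgood : ∀ J : Set I, J.Countable → Disjoint J J₀ → ¬ Bad X J) {i₀ : I} (hi₀ : i₀ ∉ J₀) :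
    CompactSpace (X i₀) := by
  classical
  refine ⟨isCompact_of_finite_subcover ?_⟩
  intro ι V hV hcov
  have huo : ∀ l, IsOpen {z : D | z.1 i₀ ∈ V l} := fun l =>
    (hV l).preimage ((continuous_apply i₀).comp continuous_subtype_val)
  have huc : ⋃ l, {z : D | z.1 i₀ ∈ V l} = Set.univ := by
    rw [eq_univ_iff_forall]
    intro z
    obtain ⟨l, hl⟩ := mem_iUnion.1 (hcov (mem_univ (z.1 i₀)))
    exact mem_iUnion.2 ⟨l, hl⟩
  obtain ⟨v, hvo, hvc, hvl, hvu⟩ := precise_refinement _ huo huc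
  let Λ : Set ι := {l | ∃ z : D, z ∈ v l ∧ ∀ i ∈ J₀, z.1 i = a i}
  have hΛ : Λ.Finite := by
    by_contra hinf
    have hinf' : Λ.Infinite := hinf
    let f := hinf'.natEmbedding
    have h1 : ∀ n, ∃ z : D, z ∈ v (f n) ∧ ∀ i ∈ J₀, z.1 i = a i := fun n => (f n).2
    choose w hwv hwa using h1
    have h2 := fun n => exists_box ((hvo (f n)).mem_nhds (hwv n))
    choose F U hUo hwU hFU using h2
    let J : Set I := (⋃ n, (F n : Set I)) \ J₀
    have hJ : J.Countable := (countable_iUnion fun n => (F n).countable_toSet).mono sdiff_subset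
    have hb := hgood J hJ disjoint_sdiff_left
    unfold Bad at hb
    push Not at hb
    obtain ⟨c, hc⟩ := hb fun n => (w n).1
    obtain ⟨z, hzD, hz⟩ := hD (fun i => if i ∈ J₀ then a i else c i) (J ∪ J₀) (hJ.union hJ₀)
    obtain ⟨N, hN, hNf⟩ := hvl ⟨z, hzD⟩
    obtain ⟨E, G, hGo, hzG, hEG⟩ := exists_box hN
    have h3 : {n | (f n : ι) ∈ {l | (v l ∩ N).Nonempty}}.Finite :=
      hNf.preimage (fun m _ n _ h => f.injective (Subtype.ext h))
    obtain ⟨b, hb⟩ := h3.bddAbove
    obtain ⟨m, hm, hmG⟩ := hc (E.filter fun i => i ∈ J) (by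
        intro i hi
        exact (Finset.mem_filter.1 hi).2) G hGo (by
        intro i hi
        obtain ⟨hiE, hiJ⟩ := Finset.mem_filter.1 hi
        have : z i ∈ G i := hzG i hiE
        have h4 := hz i (Or.inl hiJ)
        rw [if_neg hiJ.2] at h4
        rwa [h4] at this) (b + 1)
    obtain ⟨x, hxD, hx⟩ := hD
      (fun i => if i ∈ J then (w m).1 i else if i ∈ J₀ then a i else z i)
      (J ∪ J₀ ∪ E) ((hJ.union hJ₀).union E.countable_toSet)
    have hxN : (⟨x, hxD⟩ : D) ∈ N := by
      apply hEG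
      intro i hi
      show x i ∈ G i
      rw [hx i (Or.inr hi)]
      by_cases hiJ : i ∈ J
      · rw [if_pos hiJ]
        exact hmG i (Finset.mem_filter.2 ⟨hi, hiJ⟩)
      · rw [if_neg hiJ]
        by_cases hi0 : i ∈ J₀
        · rw [if_pos hi0]
          have : z i ∈ G i := hzG i hi
          have h4 := hz i (Or.inr hi0)
          rw [if_pos hi0] at h4
          rwa [h4] at this
        · rw [if_neg hi0]
          exact hzG i hi
    have hxv : (⟨x, hxD⟩ : D) ∈ v (f m) := by
      apply hFU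
      intro i hi
      show x i ∈ U m i
      by_cases hi0 : i ∈ J₀
      · have hiJ : i ∉ J := fun h => h.2 hi0
        rw [hx i (Or.inl (Or.inr hi0)), if_neg hiJ, if_pos hi0, ← hwa m i hi0]
        exact hwU m i hi
      · have hiJ : i ∈ J := ⟨mem_iUnion.2 ⟨m, hi⟩, hi0⟩
        rw [hx i (Or.inl (Or.inl hiJ)), if_pos hiJ]
        exact hwU m i hi
    have h5 : m ≤ b := hb (show (f m : ι) ∈ {l | (v l ∩ N).Nonempty} from ⟨_, hxv, hxN⟩)
    omega
  refine ⟨hΛ.toFinset, ?_⟩
  intro t _
  obtain ⟨z, hzD, hz⟩ := hD (fun i => if h : i = i₀ then h ▸ t else a i) (insert i₀ J₀)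
    (hJ₀.insert i₀)
  have hzv : (⟨z, hzD⟩ : D) ∈ ⋃ l, v l := by rw [hvc]; trivial
  obtain ⟨l, hl⟩ := mem_iUnion.1 hzv
  have hlΛ : l ∈ Λ := by
    refine ⟨_, hl, fun i hi => ?_⟩
    have hne : i ≠ i₀ := fun h => hi₀ (h ▸ hi)
    have := hz i (Or.inr hi)
    rwa [dif_neg hne] at this
  refine mem_iUnion₂.2 ⟨l, hΛ.mem_toFinset.2 hlΛ, ?_⟩
  have h6 : z i₀ ∈ V l := hvu l hl
  have h7 := hz i₀ (Or.inl rfl)
  rw [dif_pos rfl] at h7
  rwa [h7] at h6

/-- Recursion along a well-founded relation with choice. -/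
lemma exists_rec {D : Type*} (P : (α : W) → ((β : W) → β < α → D) → D → Prop)
    (h : ∀ α g, ∃ x, P α g x) : ∃ y : W → D, ∀ α, P α (fun β _ => y β) (y α) := by
  choose f hf using h
  let y : W → D := (wellFounded_lt (α := W)).fix (fun α g => f α g)
  refine ⟨y, fun α => ?_⟩
  have h1 : y α = f α (fun β _ => y β) := (wellFounded_lt (α := W)).fix_eq _ α
  rw [h1]
  exact hf α _

/-- Case A: uncountably many disjoint bad countable sets. -/
theorem not_paracompact_of_bad {D : Set (∀ i, X i)} (hD : Fills D) (p : ∀ i, X i)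
    {J : W → Set I} (hJc : ∀ k, (J k).Countable) (hJd : ∀ k l, k ≠ l → Disjoint (J k) (J l))
    (hbad : ∀ k, Bad X (J k)) : ¬ ParacompactSpace D := by
  classical
  intro hpc
  unfold Bad at hbad
  choose w hw using hbad
  choose Fk hFk U hUo hxU nk hnk using hw
  -- injections of initial segments
  have he : ∀ α : W, ∃ e : W → ℕ, InjOn e (Iio α) := fun α =>
    Set.countable_iff_exists_injOn.1 (countable_Iio α)
  choose e he using he
  -- the finite sets
  have hS : ∀ z : ∀ i, X i, ∃ S : Finset W, ∃ n : ℕ, S.card = n + 1 ∧ ∀ k ∈ S, nk k z = n := by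
    intro z
    obtain ⟨n, hn⟩ := Pool.Agent.H151.uncountable_fiber (fun k => nk k z) Set.univ
      not_countable_univ
    have hinf : {i ∈ (Set.univ : Set W) | nk i z = n}.Infinite := fun hf => hn hf.countable
    obtain ⟨S, hS, hc⟩ := hinf.exists_subset_card_eq (n + 1)
    exact ⟨S, n, hc, fun k hk => (hS hk).2⟩
  choose S n hcard hSn using hS
  -- the cover
  let O : D → Set D := fun z => {x : D | ∀ k ∈ S z.1, ∀ i ∈ Fk k z.1, x.1 i ∈ U k z.1 i}
  have hO : ∀ z, IsOpen (O z) := by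
    intro z
    have : O z = ⋂ k ∈ S z.1, ⋂ i ∈ Fk k z.1, {x : D | x.1 i ∈ U k z.1 i} := by
      ext x; simp [O]
    rw [this]
    refine isOpen_biInter_finset fun k _ => isOpen_biInter_finset fun i _ => ?_
    exact (hUo k z.1 i).preimage ((continuous_apply i).comp continuous_subtype_val)
  have hOc : ⋃ z, O z = Set.univ := by
    rw [eq_univ_iff_forall]
    intro z
    exact mem_iUnion.2 ⟨z, fun k _ i hi => hxU k z.1 i hi⟩
  obtain ⟨v, hvo, hvc, hvl, hvO⟩ := precise_refinement O hO hOc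
  -- neighbourhoods
  have h1 : ∀ y : D, ∃ (V : D) (T : Set D) (F : Finset I) (G : ∀ i, Set (X i)), T.Finite ∧
      (∀ i ∈ F, y.1 i ∈ G i) ∧ (∀ x : D, (∀ i ∈ F, x.1 i ∈ G i) → x ∈ v V) ∧ y ∈ v V ∧
      ∀ x : D, (∀ i ∈ F, x.1 i ∈ G i) → ∀ z, x ∈ v z → z ∈ T := by
    intro y
    have hy : y ∈ ⋃ z, v z := by rw [hvc]; trivial
    obtain ⟨V, hV⟩ := mem_iUnion.1 hy
    obtain ⟨N, hN, hNf⟩ := hvl y
    obtain ⟨F, G, -, hyG, hFG⟩ := exists_box (Filter.inter_mem ((hvo V).mem_nhds hV) hN)
    exact ⟨V, _, F, G, hNf, hyG, fun x hx => (hFG x hx).1, hV,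
      fun x hx z hz => ⟨x, hz, (hFG x hx).2⟩⟩
  choose V T F G hT hyG hGV hyV hGT using h1
  -- the points
  obtain ⟨y, hy⟩ := exists_rec (fun α g (x : D) => (∀ k < α, ∀ i ∈ J k, x.1 i = w k (e α k) i) ∧
      ∀ β (hβ : β < α), ∀ i ∈ F (g β hβ), (∀ k < α, i ∉ J k) → x.1 i = p i) (by
    intro α g
    let E : Set I := (⋃ k ∈ Iio α, J k) ∪ ⋃ β : Iio α, (F (g β.1 β.2) : Set I)
    have hE : E.Countable := by
      refine ((countable_Iio α).biUnion fun k _ => hJc k).union ?_
      have := (countable_Iio α).to_subtype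
      exact countable_iUnion fun β => (F (g β.1 β.2)).countable_toSet
    obtain ⟨x, hxD, hx⟩ := hD
      (fun i => if h : ∃ k < α, i ∈ J k then w h.choose (e α h.choose) i else p i) E hE
    refine ⟨⟨x, hxD⟩, ?_, ?_⟩
    · intro k hk i hi
      have h : ∃ k < α, i ∈ J k := ⟨k, hk, hi⟩
      show x i = _
      rw [hx i (Or.inl (mem_biUnion hk hi)), dif_pos h]
      have : h.choose = k := by
        by_contra hne
        exact Set.disjoint_left.1 (hJd _ _ hne) h.choose_spec.2 hi
      rw [this]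
    · intro β hβ i hi hk
      show x i = _
      rw [hx i (Or.inr (mem_iUnion.2 ⟨⟨β, hβ⟩, hi⟩)), dif_neg]
      rintro ⟨k, hk1, hk2⟩
      exact hk k hk1 hk2)
  -- each member of the cover contains few points
  have hfew : ∀ z : D, {α : W | y α ∈ O z}.Countable := by
    intro z
    obtain ⟨b, hb⟩ := exists_bound (S := (S z.1 : Set W)) (S z.1).countable_toSet
    refine (countable_Iio b).mono ?_
    intro α hα
    by_contra hnb
    have hbα : b ≤ α := not_lt.1 hnb
    have h2 : ∀ k ∈ S z.1, e α k < n z.1 := by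
      intro k hk
      by_contra hlt
      have hkα : k < α := (hb k hk).trans_le hbα
      have hle : nk k z.1 ≤ e α k := by rw [hSn z.1 k hk]; exact not_lt.1 hlt
      obtain ⟨i, hi, hiU⟩ := hnk k z.1 (e α k) hle
      apply hiU
      rw [← (hy α).1 k hkα i (hFk k z.1 hi)]
      exact hα k hk i hi
    have h3 : (S z.1).card ≤ (Finset.range (n z.1)).card := by
      refine Finset.card_le_card_of_injOn (e α) (fun k hk => ?_) ?_
      · exact Finset.mem_coe.2 (Finset.mem_range.2 (h2 k hk))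
      · intro k hk l hl hkl
        exact he α ((hb k hk).trans_le hbα) ((hb l hl).trans_le hbα) hkl
    rw [hcard, Finset.card_range] at h3
    omega
  -- the Delta system
  obtain ⟨A, R, -, hA, hRF, hAR⟩ := Pool.Agent.H151.delta_system (fun α => F (y α)) Set.univ
    not_countable_univ
  obtain ⟨α₁, hα₁⟩ : A.Nonempty := by
    rw [nonempty_iff_ne_empty]
    rintro rfl
    exact hA countable_empty
  have hA1 : ¬ {α ∈ A | α₁ < α}.Countable := by
    intro hc
    apply hA
    refine (hc.union (countable_Iic α₁)).mono ?_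
    intro α hα
    by_cases h : α₁ < α
    · exact Or.inl ⟨hα, h⟩
    · exact Or.inr (not_lt.1 h)
  let c : W → R → ℕ := fun α j =>
    if h : ∃ k < α, j.1 ∈ J k then e α h.choose + 1 else 0
  obtain ⟨c₀, hc₀⟩ := Pool.Agent.H151.uncountable_fiber c _ hA1
  have hagree : ∀ α β, α ∈ A → α₁ < α → c α = c₀ → β ∈ A → α₁ < β → c β = c₀ →
      ∀ j ∈ R, (y α).1 j = (y β).1 j := by
    intro α β hα hα1 hcα hβ hβ1 hcβ j hj
    have hcj : c α ⟨j, hj⟩ = c β ⟨j, hj⟩ := by rw [hcα, hcβ]
    have hjF : j ∈ F (y α₁) := hRF α₁ hα₁ hj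
    by_cases h : ∃ k < α, j ∈ J k
    · by_cases h' : ∃ k < β, j ∈ J k
      · have hk : h.choose = h'.choose := by
          by_contra hne
          exact Set.disjoint_left.1 (hJd _ _ hne) h.choose_spec.2 h'.choose_spec.2
        simp only [c] at hcj
        rw [dif_pos h, dif_pos h'] at hcj
        rw [(hy α).1 _ h.choose_spec.1 j h.choose_spec.2,
          (hy β).1 _ h'.choose_spec.1 j h'.choose_spec.2, ← hk]
        have h4 : e α h.choose = e β h'.choose := by omega
        rw [h4, ← hk]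
      · simp only [c] at hcj
        rw [dif_pos h, dif_neg h'] at hcj
        omega
    · by_cases h' : ∃ k < β, j ∈ J k
      · simp only [c] at hcj
        rw [dif_neg h, dif_pos h'] at hcj
        omega
      · push Not at h h'
        rw [(hy α).2 α₁ hα1 j hjF h, (hy β).2 α₁ hβ1 j hjF h']
  obtain ⟨α₀, hα₀⟩ : {i ∈ {α ∈ A | α₁ < α} | c i = c₀}.Nonempty := by
    rw [nonempty_iff_ne_empty]
    intro h
    rw [h] at hc₀
    exact hc₀ countable_empty
  -- all these points lie in finitely many members of the refinement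
  have hVT : ∀ α ∈ {i ∈ {α ∈ A | α₁ < α} | c i = c₀}, V (y α) ∈ T (y α₀) := by
    rintro α ⟨⟨hαA, hα1⟩, hcα⟩
    obtain ⟨x, hxD, hx⟩ := hD (fun i => if i ∈ F (y α₀) then (y α₀).1 i else (y α).1 i)
      ((F (y α₀) : Set I) ∪ F (y α)) ((F (y α₀)).countable_toSet.union (F (y α)).countable_toSet)
    refine hGT (y α₀) ⟨x, hxD⟩ ?_ _ (hGV (y α) ⟨x, hxD⟩ ?_)
    · intro i hi
      show x i ∈ _
      rw [hx i (Or.inl hi), if_pos hi]
      exact hyG (y α₀) i hi
    · intro i hi
      show x i ∈ _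
      rw [hx i (Or.inr hi)]
      by_cases h : i ∈ F (y α₀)
      · rw [if_pos h]
        by_cases hαα : α = α₀
        · subst hαα
          exact hyG (y α) i hi
        · have hiR : i ∈ R := hAR α hαA α₀ hα₀.1.1 hαα i hi h
          rw [← hagree α α₀ hαA hα1 hcα hα₀.1.1 hα₀.1.2 hα₀.2 i hiR]
          exact hyG (y α) i hi
      · rw [if_neg h]
        exact hyG (y α) i hi
  apply hc₀
  refine ((hT (y α₀)).countable.biUnion fun z _ => hfew z).mono ?_
  intro α hα
  exact mem_biUnion (hVT α hα) (hvO _ (hyV (y α)))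

/-- The main theorem. -/
theorem main [Uncountable I] (hX : ∀ i, ¬ CompactSpace (X i)) (D : Set (∀ i, X i))
    (hD : Fills D) : ¬ ParacompactSpace D := by
  classical
  intro hpc
  have hne : ∀ i, Nonempty (X i) := by
    intro i
    by_contra h
    have : IsEmpty (X i) := not_nonempty_iff.1 h
    exact hX i inferInstance
  let p : ∀ i, X i := fun i => (hne i).some
  -- a maximal disjoint family of bad countable sets
  obtain ⟨S, hS⟩ := zorn_subset {S : Set (Set I) | (∀ J ∈ S, J.Countable ∧ Bad X J) ∧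
      ∀ J ∈ S, ∀ K ∈ S, J ≠ K → Disjoint J K} (by
    intro C hC hchain
    refine ⟨⋃₀ C, ⟨?_, ?_⟩, fun s hs => subset_sUnion_of_mem hs⟩
    · rintro J ⟨s, hs, hJ⟩
      exact (hC hs).1 J hJ
    · rintro J ⟨s, hs, hJ⟩ K ⟨t, ht, hK⟩ hne
      rcases hchain.total hs ht with h | h
      · exact (hC ht).2 J (h hJ) K hK hne
      · exact (hC hs).2 J hJ K (h hK) hne)
  have hS1 := hS.prop
  by_cases hSc : S.Countable
  · -- Case B
    have hJ₀ : (⋃₀ S).Countable := hSc.sUnion fun J hJ => (hS1.1 J hJ).1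
    have hex : ∃ i, i ∉ ⋃₀ S := by
      by_contra h
      push Not at h
      have : (Set.univ : Set I).Countable := hJ₀.mono fun i _ => h i
      exact not_countable (Set.countable_univ_iff.1 this)
    obtain ⟨i₀, hi₀⟩ := hex
    refine hX i₀ (compact_factor hD p hJ₀ ?_ hi₀)
    intro J hJ hdisj hbad
    have hins : insert J S ⊆ S := by
      refine hS.le_of_ge (y := insert J S) ⟨?_, ?_⟩ (subset_insert _ _)
      · rintro K (rfl | hK)
        · exact ⟨hJ, hbad⟩
        · exact hS1.1 K hK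
      · rintro K (rfl | hK) L (rfl | hL) hne
        · exact absurd rfl hne
        · exact hdisj.mono_right (subset_sUnion_of_mem hL)
        · exact (hdisj.mono_right (subset_sUnion_of_mem hK)).symm
        · exact hS1.2 K hK L hL hne
    have hJS : J ∈ S := hins (mem_insert _ _)
    have hJe : J = ∅ := by
      have := hdisj.mono_right (subset_sUnion_of_mem hJS)
      simpa using this
    subst hJe
    obtain ⟨w, hw⟩ := hbad
    obtain ⟨F, hF, U, -, -, n, hn⟩ := hw p
    obtain ⟨i, hi, -⟩ := hn n le_rfl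
    exact hF hi
  · -- Case A
    have hcard : Cardinal.lift.{u} (Cardinal.mk W) ≤ Cardinal.lift.{0} (Cardinal.mk S) := by
      rw [Cardinal.mk_toType, Cardinal.card_ord, Cardinal.lift_uzero]
      have h1 : Cardinal.aleph0 < Cardinal.mk S := by
        rw [← not_le, Cardinal.le_aleph0_iff_set_countable]
        exact hSc
      have h2 := Order.succ_le_of_lt h1
      rw [Cardinal.succ_aleph0] at h2
      simpa using h2
    obtain ⟨f⟩ := Cardinal.lift_mk_le'.1 hcard
    exact not_paracompact_of_bad hD p (J := fun k => (f k).1)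
      (fun k => (hS1.1 _ (f k).2).1)
      (fun k l hkl => hS1.2 _ (f k).2 _ (f l).2 fun h => hkl (f.injective (Subtype.ext h)))
      (fun k => (hS1.1 _ (f k).2).2) hpc

end Pool.Agent.X212.Fill
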